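import Pool.Agent.H37.CNW.Stmts

/-!
# Board `cnw`, row XD4 (helper62)
-/

set_option autoImplicit false

namespace Pool.CND

open Finset

private theorem xd4_ram0 {k L G : Type} [Field k] [Field L] [Algebra k L] [Group G] (P : Place k L)
    (ρ : G →* (L ≃ₐ[k] L)) (g : G) : g ∈ ram P ρ 0 ↔ Fixes P (ρ g) := by
  constructor
  · intro h
    exact h.1
  · intro h
    refine ⟨h, fun u hu0 hu1 => ?_⟩
    have h1 : P.Ge (ρ g u - u) 1 :=
      P.ge_sub (h.ge (Or.inr (by rw [hu1]))) (Or.inr (by rw [hu1]))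
    rcases h1 with h1 | h1
    · exact Or.inl (sub_eq_zero.1 h1)
    · exact Or.inr (by simpa using h1)

private theorem xd4_split {G : Type} [Fintype G] (b : G → ℤ) (S T R : Set G)
    (hR : ∀ g, g ∈ R ↔ g ∈ S ∨ g ∈ T) (hd : ∀ g, g ∈ S → g ∈ T → False) :
    sm b R = sm b S + sm b T := by
  classical
  unfold sm
  rw [← Finset.sum_union]
  · refine Finset.sum_congr ?_ fun _ _ => rfl
    ext g
    rw [Finset.mem_union, Finset.mem_filter, Finset.mem_filter, Finset.mem_filter, hR]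
    tauto
  · rw [Finset.disjoint_left]
    intro g h1 h2
    exact hd g (Finset.mem_filter.1 h1).2 (Finset.mem_filter.1 h2).2

private theorem xd4_zero {G : Type} [Fintype G] (b : G → ℤ) (T : Set G)
    (h0 : ∀ x ∈ T, b x = 0) : sm b T = 0 := by
  classical
  unfold sm
  exact Finset.sum_eq_zero fun g hg => h0 g (Finset.mem_filter.1 hg).2

theorem xd4_thm (hXD1 : S_XD1) (hXD2 : S_XD2) (hXDI : S_XDI) (hCON : S_CON) (hRAM : S_RAM)
    (hINJ : S_INJ) : S_XD4 := by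
  intro p k L G _ _ _ _ _ P ρ I W B N z l c hp hck hρ hI hW hNB hBI hnorm hcard hzB hzN hzl
    hlst hcon
  have hfixI : ∀ g : G, g ∈ I ↔ Fixes P (ρ g) := by
    intro g
    rw [← SetLike.mem_coe, hI]
    exact xd4_ram0 P ρ g
  have hmemW : ∀ g : G, g ∈ W ↔ g ∈ ram P ρ 1 := fun g => by rw [← SetLike.mem_coe, hW]
  have hWI : ∀ g ∈ W, g ∈ I := fun g hg => (hfixI g).2 ((hmemW g).1 hg).1
  have htame : ∀ g ∈ I, g ∉ W → P.b (ρ g) = 0 := by
    intro g hg hgW
    have hfix := (hfixI g).1 hg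
    have hg1 : ρ g ≠ 1 := by
      intro h
      have h2 : g = 1 := hρ (by rw [h, map_one])
      exact hgW (h2 ▸ W.one_mem)
    have h1 : ¬ (1 : ℤ) ≤ P.b (ρ g) := by
      intro h
      exact hgW ((hmemW g).2 ((hRAM k L G P ρ g 1 le_rfl).2 ⟨hfix, Or.inr (by exact_mod_cast h)⟩))
    have h2 : P.Ge (ρ g P.pi - P.pi) 1 :=
      P.ge_sub (hfix.ge (Or.inr (by rw [P.ord_pi]))) (Or.inr (by rw [P.ord_pi]))
    have h3 : ρ g P.pi - P.pi ≠ 0 := fun h =>
      hg1 (hINJ k L P (ρ g) P.pi hfix P.pi_ne P.ord_pi (sub_eq_zero.1 h))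
    have h4 := h2.resolve_left h3
    unfold Place.b at h1 ⊢
    omega
  have hl1 : 1 ≤ l := by
    obtain ⟨w, hw, hw1, hwl⟩ := hlst.mem
    have h1 := ((hRAM k L G P ρ w 1 le_rfl).1 ((hmemW w).1 hw)).2
    rcases h1 with h1 | h1
    · exact absurd (hρ (by rw [h1, map_one])) hw1
    · have h2 : P.b (ρ w) = l := hwl
      rw [h2] at h1
      exact_mod_cast h1
  have hBle : ∀ g ∈ B, g ≠ 1 → P.b (ρ g) ≤ l := by
    intro g hg hg1
    by_cases hgW : g ∈ W
    · exact hlst.le g hgW hg1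
    · rw [htame g (hBI hg) hgW]
      omega
  have hfixB : ∀ g ∈ B, Fixes P (ρ g) := fun g hg => (hfixI g).1 (hBI hg)
  obtain ⟨β, -, hβp, hβ, -⟩ := hXD1 p k L G P ρ B N hp hck hρ hNB hfixB hnorm hcard
  have h2 := hXD2 p k L G P ρ B N z l β hp hck hρ hNB hfixB hnorm hcard hβ hzB hzN hzl hBle
  obtain ⟨s, hs, hs2⟩ := hXDI p k L G P ρ I W B hp hck hρ hI hW hBI
  rcases hCON k L G P ρ W I c hρ hW hI hcon with h0 | ⟨l', hl', hc⟩
  · exact ⟨0, by rw [h0]; simp, fun _ _ => dvd_zero _⟩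
  · have hll : l' = l := by
      obtain ⟨w, hw, hw1, hwl⟩ := hlst.mem
      obtain ⟨w', hw', hw1', hwl'⟩ := hl'.mem
      refine le_antisymm ?_ ?_
      · rw [← hwl']
        exact hlst.le w' hw' hw1'
      · rw [← hwl]
        exact hl'.le w hw hw1
    subst hll
    refine ⟨β + s, ?_, ?_⟩
    · have hWq : (Nat.card W : ℚ) ≠ 0 := by
        have : 0 < Nat.card W := Nat.card_pos
        exact_mod_cast this.ne'
      have e1 : sm (fun x => P.b (ρ x)) {g | g ∈ I ∧ g ≠ 1} =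
          sm (fun x => P.b (ρ x)) {g | g ∈ W ∧ g ≠ 1} +
            sm (fun x => P.b (ρ x)) {g | g ∈ I ∧ g ∉ W} := by
        refine xd4_split _ _ _ _ ?_ ?_
        · intro g
          show (g ∈ I ∧ g ≠ 1) ↔ (g ∈ W ∧ g ≠ 1) ∨ (g ∈ I ∧ g ∉ W)
          constructor
          · rintro ⟨h3, h4⟩
            by_cases h5 : g ∈ W
            · exact Or.inl ⟨h5, h4⟩
            · exact Or.inr ⟨h3, h5⟩
          · rintro (⟨h3, h4⟩ | ⟨h3, h4⟩)
            · exact ⟨hWI g h3, h4⟩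
            · refine ⟨h3, ?_⟩
              rintro rfl
              exact h4 W.one_mem
        · rintro g ⟨h3, -⟩ ⟨-, h4⟩
          exact h4 h3
      have e2 : sm (fun x => P.b (ρ x)) {g | g ∈ I ∧ g ≠ 1} =
          sm (fun x => P.b (ρ x)) {g | g ∈ B ∧ g ≠ 1} +
            sm (fun x => P.b (ρ x)) {g | g ∈ I ∧ g ∉ B} := by
        refine xd4_split _ _ _ _ ?_ ?_
        · intro g
          show (g ∈ I ∧ g ≠ 1) ↔ (g ∈ B ∧ g ≠ 1) ∨ (g ∈ I ∧ g ∉ B)
          constructor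
          · rintro ⟨h3, h4⟩
            by_cases h5 : g ∈ B
            · exact Or.inl ⟨h5, h4⟩
            · exact Or.inr ⟨h3, h5⟩
          · rintro (⟨h3, h4⟩ | ⟨h3, h4⟩)
            · exact ⟨hBI h3, h4⟩
            · refine ⟨h3, ?_⟩
              rintro rfl
              exact h4 B.one_mem
        · rintro g ⟨h3, -⟩ ⟨-, h4⟩
          exact h4 h3
      have e3 : sm (fun x => P.b (ρ x)) {g | g ∈ I ∧ g ∉ W} = 0 :=
        xd4_zero _ _ fun g hg => htame g hg.1 hg.2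
      have e4 : l' + sm (fun x => P.b (ρ x)) {g | g ∈ W ∧ g ≠ 1} = Nat.card B * (β + s) := by
        rw [e3, add_zero] at e1
        rw [← e1, e2, hs, mul_add, ← h2]
        ring
      have e5 : (l' : ℚ) + (sm (fun x => P.b (ρ x)) {g | g ∈ W ∧ g ≠ 1} : ℤ) =
          Nat.card B * ((β + s : ℤ) : ℚ) := by exact_mod_cast e4
      rw [hc]
      unfold U
      rw [mul_div_cancel₀ _ hWq]
      exact e5
    · intro hp2 hWB
      have h3 := hs2 hp2 hWB
      rw [hp2] at hβp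
      have h4 : ¬ (2 : ℤ) ∣ β := by exact_mod_cast hβp
      omega

end Pool.CND
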